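import Pool.Agent.GiantSurf57.Final

/-!
# MP_b03f5e_pr, Q1: the order of the non-giant part at the second phase transition of a random
# graph on the closed orientable surface of genus `g`

Full positive answer. The definitions used by the statement come first; the proof is in
`Pool/Agent/GiantSurf57`.
-/

open Filter

namespace Pool.Agent.Results.MP_b03f5e_pr.SecondPhase

/-! ## Graphs on the closed orientable surface of genus `g` -/

section Embedding

variable {V : Type*}

/-- `σ` is a rotation system of the graph `G`. A dart is an ordered pair of adjacent vertices;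
`σ` fixes every pair of vertices that is not a dart, keeps the first vertex of every pair, and
permutes the darts starting at a vertex in a single cycle. So a rotation system is the same thing
as a cyclic order of the neighbours around every vertex. -/
structure IsRotation (G : SimpleGraph V) (σ : Equiv.Perm (V × V)) : Prop where
  fix : ∀ x y, ¬ G.Adj x y → σ (x, y) = (x, y)
  fst : ∀ d, (σ d).1 = d.1
  cyc : ∀ x y z, G.Adj x y → G.Adj x z → σ.SameCycle (x, y) (x, z)

/-- The faces of the rotation system `σ` of `G`: the cycles, on the darts, of the face permutation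
`(x, y) ↦ σ (y, x)`. -/
def faces (G : SimpleGraph V) (σ : Equiv.Perm (V × V)) : Set (Set (V × V)) :=
  {f | ∃ x y, G.Adj x y ∧ f = {e | (σ * Equiv.prodComm V V).SameCycle (x, y) e}}

/-- The vertex sets of the connected components of `G` that have an edge. -/
def edgeComponents (G : SimpleGraph V) : Set (Set V) :=
  {C | ∃ x y, G.Adj x y ∧ C = {z | G.Reachable x z}}

/-- The finite graph `G` can be embedded on the closed orientable surface of genus `g`: it has a
rotation system for which the sum of the genera `h` of the components, each computed from Euler's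
formula `(vertices) - (edges) + (faces) = 2 - 2 h`, is at most `g`. (Isolated vertices, which have
genus `0`, are left out on both sides.) -/
def Embeds (g : ℕ) (G : SimpleGraph V) : Prop :=
  ∃ σ : Equiv.Perm (V × V), IsRotation G σ ∧
    2 * (edgeComponents G).ncard + G.edgeSet.ncard ≤ G.support.ncard + (faces G σ).ncard + 2 * g

end Embedding

/-! ## The uniform random graph `G_g(n, m)` -/

/-- The set of all graphs on `n` vertices with exactly `m` edges that can be embedded on the
surface of genus `g`. -/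
def SurfaceGraphs (g n m : ℕ) : Set (SimpleGraph (Fin n)) :=
  {G | Embeds g G ∧ G.edgeSet.ncard = m}

/-- The probability that the uniform random element `G_g(n, m)` of `SurfaceGraphs g n m` has the
property `E`. -/
noncomputable def Prob (g n m : ℕ) (E : SimpleGraph (Fin n) → Prop) : ℝ :=
  ({G | G ∈ SurfaceGraphs g n m ∧ E G}.ncard : ℝ) / ((SurfaceGraphs g n m).ncard : ℝ)

/-- `|H_1|`: the largest number of vertices of a connected component. -/
noncomputable def maxComp {n : ℕ} (G : SimpleGraph (Fin n)) : ℕ :=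
  sSup (Set.range fun c : G.ConnectedComponent => c.supp.ncard)

/-- Every connected component with the largest number of vertices is complex, i.e. it has more
edges than vertices. -/
def LargestComplex {n : ℕ} (G : SimpleGraph (Fin n)) : Prop :=
  ∀ c : G.ConnectedComponent, c.supp.ncard = maxComp G →
    c.supp.ncard < {e ∈ G.edgeSet | ∀ x ∈ e, x ∈ c.supp}.ncard

/-- `n - |H_1| = Θ_p(f(n))` for the random graph `G_g(n, m(n))`. -/
def ThetaP (g : ℕ) (m : ℕ → ℕ) (f : ℕ → ℝ) : Prop :=
  ∀ ε : ℝ, 0 < ε → ∃ c₁ c₂ : ℝ, 0 < c₁ ∧ c₁ ≤ c₂ ∧ ∀ᶠ n : ℕ in atTop,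
    1 - ε ≤ Prob g n (m n) (fun G => c₁ * f n ≤ (n : ℝ) - (maxComp G : ℝ) ∧
      (n : ℝ) - (maxComp G : ℝ) ≤ c₂ * f n)

/-! ## The theorem -/

theorem embeds_iff {V : Type*} (g : ℕ) (G : SimpleGraph V) :
    Embeds g G ↔ GiantSurf57.Emb g G := by
  constructor
  · rintro ⟨σ, h, h'⟩
    exact ⟨σ, ⟨h.fix, h.fst, h.cyc⟩, h'⟩
  · rintro ⟨σ, h, h'⟩
    exact ⟨σ, ⟨h.fix, h.fst, h.cyc⟩, h'⟩

theorem surfaceGraphs_eq (g n m : ℕ) : SurfaceGraphs g n m = GiantSurf57.SG g n m := by
  ext G
  exact and_congr (embeds_iff g G) Iff.rfl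

theorem prob_eq (g n m : ℕ) (E : SimpleGraph (Fin n) → Prop) :
    Prob g n m E = GiantSurf57.Pr g n m E := by
  rw [Prob, GiantSurf57.Pr, surfaceGraphs_eq]

theorem thetaP_iff (g : ℕ) (m : ℕ → ℕ) (f : ℕ → ℝ) :
    ThetaP g m f ↔ GiantSurf57.ThetaP g m f := by
  simp only [ThetaP, GiantSurf57.ThetaP, prob_eq]
  exact Iff.rfl

/-- **The second phase transition of `G_g(n, m)`.** Let `g ≥ 0` be fixed and let
`m = (2 + λ n^(-2/5)) n / 2` with `λ = o(n^(2/5))` (`λ` may be negative). Then, as `n → ∞`, there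
are such graphs, with probability tending to `1` the largest component is complex, and
`n - |H_1|` is `Θ_p(|λ| n^(3/5))` if `λ → -∞`, `Θ_p(n^(3/5))` if `λ` tends to a real number, and
`Θ_p(λ^(-3/2) n^(3/5))` if `λ → ∞`. -/
theorem result (g : ℕ) (m : ℕ → ℕ) (lam : ℕ → ℝ)
    (hm : ∀ n : ℕ, 1 ≤ n →
      (m n : ℝ) = (2 + lam n * (n : ℝ) ^ (-(2 / 5) : ℝ)) * ((n : ℝ) / 2))
    (hlam : (fun n => lam n) =o[atTop] (fun n : ℕ => (n : ℝ) ^ (2 / 5 : ℝ))) :
    (∀ᶠ n : ℕ in atTop, (SurfaceGraphs g n (m n)).Nonempty) ∧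
    Tendsto (fun n => Prob g n (m n) LargestComplex) atTop (nhds 1) ∧
    (Tendsto lam atTop atBot →
      ThetaP g m (fun n => |lam n| * (n : ℝ) ^ (3 / 5 : ℝ))) ∧
    (∀ c : ℝ, Tendsto lam atTop (nhds c) →
      ThetaP g m (fun n => (n : ℝ) ^ (3 / 5 : ℝ))) ∧
    (Tendsto lam atTop atTop →
      ThetaP g m (fun n => lam n ^ (-(3 / 2) : ℝ) * (n : ℝ) ^ (3 / 5 : ℝ))) := by
  obtain ⟨h1, h2, h3, h4, h5⟩ := GiantSurf57.final g m lam hm hlam
  simp only [surfaceGraphs_eq, prob_eq, thetaP_iff]
  exact ⟨h1, h2, h3, h4, h5⟩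

end Pool.Agent.Results.MP_b03f5e_pr.SecondPhase
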